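import Pool.Agent.R547.Orc.Defs

set_option autoImplicit false

/-!
# Oracle algorithms as decision trees: the basic counting lemma
-/

namespace Pool.Agent.R547.Orc

namespace Algo

variable {Q R O : Type}

/-- The questions asked. -/
def asked (ans : Q → R) : Algo Q R O → List Q
  | stop _ => []
  | ask q next => q :: asked ans (next (ans q))

theorem length_asked (ans : Q → R) (T : Algo Q R O) : (T.asked ans).length = T.cost ans := by
  induction T with
  | stop o => rfl
  | ask q next ih => simp [asked, cost, ih]

theorem output_eq_of_agree (ans ans' : Q → R) (T : Algo Q R O)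
    (h : ∀ q ∈ T.asked ans, ans' q = ans q) : T.output ans' = T.output ans := by
  induction T with
  | stop o => rfl
  | ask q next ih =>
    have h1 : ans' q = ans q := h q (by simp [asked])
    simp only [output]
    rw [h1]
    apply ih
    intro q' hq'
    exact h q' (by simp [asked, hq'])

end Algo

open Classical in
/-- Counting: a decision tree with few questions on the reference oracle `ans₀` is successful on
few of the hidden instances `c ∈ C`. -/
theorem card_success_le {Q R O κ : Type} (C : Finset κ) (ans₀ : Q → R) (ans : κ → Q → R)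
    (hit : Q → κ → Prop) (outhit : O → κ → Prop) (good : κ → O → Prop) (h : ℕ)
    (hagree : ∀ c ∈ C, ∀ q, ¬ hit q c → ans c q = ans₀ q)
    (hgood : ∀ c ∈ C, ∀ o, good c o → outhit o c)
    (hcard : ∀ q, (C.filter (hit q)).card ≤ h)
    (hocard : ∀ o, (C.filter (outhit o)).card ≤ h)
    (T : Algo Q R O) :
    (C.filter (fun c => good c (T.output (ans c)))).card ≤ (T.cost ans₀ + 1) * h := by
  have hsub : C.filter (fun c => good c (T.output (ans c))) ⊆
      (T.asked ans₀).toFinset.biUnion (fun q => C.filter (hit q)) ∪
        C.filter (outhit (T.output ans₀)) := by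
    intro c hc
    rw [Finset.mem_filter] at hc
    rw [Finset.mem_union]
    by_cases hx : ∃ q ∈ T.asked ans₀, hit q c
    · left
      obtain ⟨q, hq, hh⟩ := hx
      rw [Finset.mem_biUnion]
      exact ⟨q, by simpa using hq, by simp [hc.1, hh]⟩
    · right
      push Not at hx
      have he : T.output (ans c) = T.output ans₀ :=
        Algo.output_eq_of_agree _ _ _ (fun q hq => hagree c hc.1 q (hx q hq))
      rw [he] at hc
      exact Finset.mem_filter.2 ⟨hc.1, hgood c hc.1 _ hc.2⟩
  refine (Finset.card_le_card hsub).trans ((Finset.card_union_le _ _).trans ?_)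
  have h1 : ((T.asked ans₀).toFinset.biUnion (fun q => C.filter (hit q))).card ≤
      T.cost ans₀ * h := by
    refine (Finset.card_biUnion_le_card_mul _ _ h (fun q _ => hcard q)).trans ?_
    refine Nat.mul_le_mul_right _ ?_
    rw [← Algo.length_asked]
    exact List.toFinset_card_le _
  have h2 := hocard (T.output ans₀)
  rw [Nat.add_mul, one_mul]
  omega

open Classical in
/-- The same for a random decision tree (Yao): if each of the hidden instances is solved with
probability at least `1/2`, then the number of hidden instances is at most `2 (q + 1) h`. -/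
theorem card_le_of_random {Q R O κ : Type} (C : Finset κ) (ans₀ : Q → R) (ans : κ → Q → R)
    (hit : Q → κ → Prop) (outhit : O → κ → Prop) (good : κ → O → Prop) (h : ℕ)
    (hagree : ∀ c ∈ C, ∀ q, ¬ hit q c → ans c q = ans₀ q)
    (hgood : ∀ c ∈ C, ∀ o, good c o → outhit o c)
    (hcard' : ∀ q, ∀ D ⊆ C, (∀ c ∈ D, hit q c) → D.card ≤ h)
    (hocard' : ∀ o, ∀ D ⊆ C, (∀ c ∈ D, outhit o c) → D.card ≤ h)
    (μ : PMF (Algo Q R O)) (b : ℕ)
    (hb : ∀ T ∈ μ.support, T.cost ans₀ ≤ b)
    (hμ : ∀ c ∈ C, 1 / 2 ≤ μ.toOuterMeasure {T | good c (T.output (ans c))}) :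
    C.card ≤ 2 * ((b + 1) * h) := by
  have hcard : ∀ q, (C.filter (hit q)).card ≤ h := fun q =>
    hcard' q _ (Finset.filter_subset _ _) (fun c hc => (Finset.mem_filter.1 hc).2)
  have hocard : ∀ o, (C.filter (outhit o)).card ≤ h := fun o =>
    hocard' o _ (Finset.filter_subset _ _) (fun c hc => (Finset.mem_filter.1 hc).2)
  have h1 : ∑ c ∈ C, (1 / 2 : ENNReal) ≤
      ∑ c ∈ C, μ.toOuterMeasure {T | good c (T.output (ans c))} := Finset.sum_le_sum hμ
  have h2 : ∑ c ∈ C, μ.toOuterMeasure {T | good c (T.output (ans c))} ≤
      (((b + 1) * h : ℕ) : ENNReal) := by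
    simp_rw [PMF.toOuterMeasure_apply]
    rw [← Summable.tsum_finsetSum (fun c _ => ENNReal.summable)]
    have h3 : ∀ T : Algo Q R O,
        ∑ c ∈ C, Set.indicator {T | good c (T.output (ans c))} (⇑μ) T ≤
          μ T * (((b + 1) * h : ℕ) : ENNReal) := by
      intro T
      by_cases hT : T ∈ μ.support
      · have h4 := card_success_le C ans₀ ans hit outhit good h hagree hgood hcard hocard T
        have h5 : (T.cost ans₀ + 1) * h ≤ (b + 1) * h :=
          Nat.mul_le_mul_right _ (Nat.add_le_add_right (hb T hT) 1)
        have h6 : ∑ c ∈ C, Set.indicator {T | good c (T.output (ans c))} (⇑μ) T =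
            ((C.filter (fun c => good c (T.output (ans c)))).card : ENNReal) * μ T := by
          rw [Finset.card_filter, Nat.cast_sum, Finset.sum_mul]
          refine Finset.sum_congr rfl (fun c _ => ?_)
          by_cases hg : good c (T.output (ans c))
          · simp [Set.indicator, hg]
          · simp [Set.indicator, hg]
        rw [h6, mul_comm]
        gcongr
        exact h4.trans h5
      · have h7 : μ T = 0 := by
          rwa [PMF.mem_support_iff, not_not] at hT
        have h8 : ∑ c ∈ C, Set.indicator {T | good c (T.output (ans c))} (⇑μ) T = 0 := by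
          refine Finset.sum_eq_zero (fun c _ => ?_)
          by_cases hg : good c (T.output (ans c))
          · simp [Set.indicator, hg, h7]
          · simp [Set.indicator, hg]
        rw [h8]
        exact bot_le
    calc ∑' T, ∑ c ∈ C, Set.indicator {T | good c (T.output (ans c))} (⇑μ) T
        ≤ ∑' T, μ T * (((b + 1) * h : ℕ) : ENNReal) := ENNReal.tsum_le_tsum h3
      _ = (∑' T, μ T) * (((b + 1) * h : ℕ) : ENNReal) := ENNReal.tsum_mul_right
      _ = (((b + 1) * h : ℕ) : ENNReal) := by rw [PMF.tsum_coe, one_mul]
  have h9 := h1.trans h2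
  rw [Finset.sum_const, nsmul_eq_mul, ← div_eq_mul_one_div] at h9
  have h10 : (C.card : ENNReal) ≤ (((b + 1) * h : ℕ) : ENNReal) * 2 := by
    rwa [ENNReal.div_le_iff (by norm_num) (by norm_num)] at h9
  have h11 : ((C.card : ℕ) : ENNReal) ≤ ((((b + 1) * h) * 2 : ℕ) : ENNReal) := by
    push_cast at h10 ⊢
    exact h10
  have h12 : C.card ≤ ((b + 1) * h) * 2 := by exact_mod_cast h11
  omega

end Pool.Agent.R547.Orc
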