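import Mathlib

set_option autoImplicit false

/-!
# Oracle algorithms as decision trees: definitions
-/

namespace Pool.Agent.R547.Orc

/-- A deterministic adaptive oracle algorithm for one input size, written as its tree of
possible computations: it either stops with an output of type `O`, or it asks the oracle a
question of type `Q` and continues depending on the answer, which has type `R`. The time spent
between two questions is not counted and not restricted. -/
inductive Algo (Q R O : Type) : Type
  | stop (o : O) : Algo Q R O
  | ask (q : Q) (next : R → Algo Q R O) : Algo Q R O

namespace Algo

variable {Q R O : Type}

/-- The output of the algorithm when the oracle answers the question `q` by `ans q`. -/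
def output (ans : Q → R) : Algo Q R O → O
  | stop o => o
  | ask q next => output ans (next (ans q))

/-- The number of questions asked when the oracle answers the question `q` by `ans q`. -/
def cost (ans : Q → R) : Algo Q R O → ℕ
  | stop _ => 0
  | ask q next => cost ans (next (ans q)) + 1

end Algo

end Pool.Agent.R547.Orc
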